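import Mathlib
import Pool.Agent.Helper65.Club
import Pool.Agent.Helper65.TPDefs
import Pool.Agent.Helper65.TPPart2
import Pool.Agent.Helper65.TPCoverage

/-!
# `GMP_{κ⁺⁺}` implies that every `κ⁺`-centered forcing forces the tree property at `κ⁺⁺`
-/

set_option autoImplicit false
set_option linter.unusedSectionVars false

open Cardinal Order Set

universe u

namespace Pool.Agent.Results.MP_1b145a_lc.CenteredTreeProperty

open Pool.Agent.Helper65.TPDefs Pool.Agent.Helper65.Club Pool.Agent.Helper65.TPPart2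
  Pool.Agent.Helper65.TPPart1

section Forcing

variable {P : Type u} [Preorder P]

theorem forces_mono (φ : Sentence P) : ∀ {p q : P}, q ≤ p → Forces p φ → Forces q φ := by
  induction φ with
  | mem a X =>
    intro p q hqp h r hr
    exact h r (hr.trans hqp)
  | ground φ =>
    intro p q _ h
    exact h
  | neg φ _ =>
    intro p q hqp h r hr
    exact h r (hr.trans hqp)
  | and φ ψ ih1 ih2 =>
    intro p q hqp h
    exact ⟨ih1 hqp h.1, ih2 hqp h.2⟩
  | all φ ih =>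
    intro p q hqp h i
    exact ih i hqp (h i)

theorem forces_dense (φ : Sentence P) :
    ∀ {p : P}, (∀ q ≤ p, ∃ r ≤ q, Forces r φ) → Forces p φ := by
  induction φ with
  | mem a X =>
    intro p h q hq
    obtain ⟨r, hr, hr'⟩ := h q hq
    obtain ⟨r', hr'r, c, hc⟩ := hr' r le_rfl
    exact ⟨r', hr'r.trans hr, c, hc⟩
  | ground φ =>
    intro p h
    obtain ⟨r, hr, hr'⟩ := h p le_rfl
    exact hr'
  | neg φ _ =>
    intro p h q hq hqφ
    obtain ⟨r, hr, hr'⟩ := h q hq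
    exact hr' r le_rfl (forces_mono φ hr hqφ)
  | and φ ψ ih1 ih2 =>
    intro p h
    refine ⟨ih1 fun q hq => ?_, ih2 fun q hq => ?_⟩
    · obtain ⟨r, hr, hr'⟩ := h q hq
      exact ⟨r, hr, hr'.1⟩
    · obtain ⟨r, hr, hr'⟩ := h q hq
      exact ⟨r, hr, hr'.2⟩
  | all φ ih =>
    intro p h i
    refine ih i fun q hq => ?_
    obtain ⟨r, hr, hr'⟩ := h q hq
    exact ⟨r, hr, hr' i⟩

theorem forces_imp {φ ψ : Sentence P} {p : P} :
    Forces p (Sentence.imp φ ψ) ↔ ∀ q ≤ p, Forces q φ → Forces q ψ := by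
  constructor
  · intro h q hq hφ
    refine forces_dense ψ fun r hr => ?_
    by_contra hcon
    push Not at hcon
    exact h r (hr.trans hq) ⟨forces_mono φ hr hφ, fun s hs => hcon s hs⟩
  · rintro h q hq ⟨h1, h2⟩
    exact h2 q le_rfl (h q hq h1)

theorem forces_or {φ ψ : Sentence P} {p : P} :
    Forces p (Sentence.or φ ψ) ↔ ∀ q ≤ p, ∃ r ≤ q, Forces r φ ∨ Forces r ψ := by
  constructor
  · intro h q hq
    by_contra hcon
    push Not at hcon
    exact h q hq ⟨fun r hr => (hcon r hr).1, fun r hr => (hcon r hr).2⟩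
  · rintro h q hq ⟨h1, h2⟩
    obtain ⟨r, hr, h3 | h3⟩ := h q hq
    · exact h1 r hr h3
    · exact h2 r hr h3

theorem forces_ex {ι : Type u} {φ : ι → Sentence P} {p : P} :
    Forces p (Sentence.ex φ) ↔ ∀ q ≤ p, ∃ r ≤ q, ∃ i, Forces r (φ i) := by
  constructor
  · intro h q hq
    by_contra hcon
    push Not at hcon
    exact h q hq fun i r hr => hcon r hr i
  · intro h q hq hall
    obtain ⟨r, hr, i, hi⟩ := h q hq
    exact hall i r hr hi

theorem forces_and {φ ψ : Sentence P} {p : P} :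
    Forces p (Sentence.and φ ψ) ↔ Forces p φ ∧ Forces p ψ := Iff.rfl

theorem forces_all {ι : Type u} {φ : ι → Sentence P} {p : P} :
    Forces p (Sentence.all φ) ↔ ∀ i, Forces p (φ i) := Iff.rfl

theorem forces_ground {φ : Prop} {p : P} : Forces p (Sentence.ground φ) ↔ φ := Iff.rfl

theorem forces_mem {A : Type u} {a : A} {X : Name P A} {p : P} :
    Forces p (Sentence.mem a X) ↔ ∀ q ≤ p, ∃ r ≤ q, ∃ c, (a, c) ∈ X ∧ r ≤ c := Iff.rfl

end Forcing

section Main

variable {κ : Cardinal.{u}} {P : Type u} [Preorder P]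

/-- The tree facts below a condition which forces `isTree`. -/
theorem treeFacts {X : Name P (Node κ)} {R : Name P (Node κ × Node κ)} {p : P}
    (hT : Forces p (isTree κ P X R)) :
    TreeFacts (P := Iic p) (fun s q => Forces q.1 (Sentence.mem s X))
      (fun s t q => Forces q.1 (Sentence.mem (s, t) R)) := by
  unfold isTree at hT
  simp only [forces_and, forces_all, forces_imp, forces_ground] at hT
  obtain ⟨h1, h2, h3, h4, h5⟩ := hT
  refine ⟨?_, ?_, ?_, ?_, ?_, ?_, ?_, ?_, ?_, ?_, ?_⟩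
  · intro s a q hq h
    exact forces_mono _ (Subtype.coe_le_coe.2 hq) h
  · intro s a h
    refine forces_dense _ fun q hq => ?_
    obtain ⟨r, hr, hr'⟩ := h ⟨q, hq.trans a.2⟩ hq
    exact ⟨r.1, hr, hr'⟩
  · intro s t a q hq h
    exact forces_mono _ (Subtype.coe_le_coe.2 hq) h
  · intro s t a h
    refine forces_dense _ fun q hq => ?_
    obtain ⟨r, hr, hr'⟩ := h ⟨q, hq.trans a.2⟩ hq
    exact ⟨r.1, hr, hr'⟩
  · intro s t a h
    exact (h1 s t a.1 a.2 h).2.2
  · intro s t a h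
    exact (h1 s t a.1 a.2 h).1
  · intro s t a h
    exact (h1 s t a.1 a.2 h).2.1
  · intro s t v a hst htv
    exact h2 s t v a.1 a.2 ⟨hst, htv⟩
  · intro t a ht α hα
    obtain ⟨r, hr, i, hi⟩ := forces_ex.1 (h3 t α a.1 a.2 ⟨ht, hα⟩) a.1 le_rfl
    exact ⟨⟨r, hr.trans a.2⟩, hr, i, hi⟩
  · intro t α i j a hi hj
    exact h4 t α i j a.1 a.2 ⟨hi, hj⟩
  · intro a α
    obtain ⟨r, hr, i, hi⟩ := forces_ex.1 (h5 α) a.1 a.2
    exact ⟨⟨r, hr.trans a.2⟩, hr, i, hi⟩

theorem exists_branch_below (hκ : κ.IsRegular) (hG : GMP κ) (hP : IsCentered κ P)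
    {X : Name P (Node κ)} {R : Name P (Node κ × Node κ)} {p : P}
    (hT : Forces p (isTree κ P X R)) :
    ∃ r ≤ p, ∃ B : Name P (Node κ), Forces r (isBranch κ P X R B) := by
  obtain ⟨Q, hdir, hcov⟩ := hP
  have F := treeFacts hT
  set X' : Node κ → Iic p → Prop := fun s q => Forces q.1 (Sentence.mem s X) with hX'
  set L : Node κ → Node κ → Iic p → Prop :=
    fun s t q => Forces q.1 (Sentence.mem (s, t) R) with hL
  let Q' : κ.ord.ToType → Set (Iic p) := fun i => {x | x.1 ∈ Q i}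
  have hdir' : ∀ i, ∀ a ∈ Q' i, ∀ b ∈ Q' i, ∃ r ∈ Q' i, r ≤ a ∧ r ≤ b := by
    intro i a ha b hb
    obtain ⟨r, hr, hra, hrb⟩ := hdir i a.1 ha b.1 hb
    exact ⟨⟨r, hra.trans a.2⟩, hr, hra, hrb⟩
  have hcov' : ∀ a : Iic p, ∃ i, a ∈ Q' i := fun a => hcov a.1
  have hne : Nonempty (Iic p) := ⟨⟨p, le_rfl⟩⟩
  -- coverage
  have hC : Coverage X' L Q' κ := by
    obtain ⟨ε, A, hA, hε⟩ := coverage hκ hG (I := κ.ord.ToType) (mk_ord_toType κ).le
      (fun n s t => ltN L Q' n s t)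
      (by
        rintro n s t ⟨q, -, hq⟩
        exact F.lt_of_L _ _ _ hq)
      (by
        rintro n s t v ⟨q, hqn, hq⟩ ⟨q', hq'n, hq'⟩
        obtain ⟨r, hr, hrq, hrq'⟩ := hdir' n q hqn q' hq'n
        exact ⟨r, hr, F.trans _ _ _ _ (F.L_mono _ _ _ _ hrq hq) (F.L_mono _ _ _ _ hrq' hq')⟩)
      (by
        rintro n s t v ⟨q, hqn, hq⟩ ⟨q', hq'n, hq'⟩ hst
        obtain ⟨r, hr, hrq, hrq'⟩ := hdir' n q hqn q' hq'n
        exact ⟨r, hr, F.linear (F.L_mono _ _ _ _ hrq hq) (F.L_mono _ _ _ _ hrq' hq') hst⟩)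
      (by
        rintro n s t v ⟨q, hqn, hq⟩ ⟨q', hq'n, hq'⟩ hst
        obtain ⟨r, hr, hrq, hrq'⟩ := hdir' n q hqn q' hq'n
        exact F.eq_of_level (F.L_mono _ _ _ _ hrq hq) (F.L_mono _ _ _ _ hrq' hq') hst)
      {t | ∃ q, X' t q}
      (by
        intro α
        obtain ⟨r, -, i, hi⟩ := F.exists_node ⟨p, le_rfl⟩ α
        exact ⟨i, r, hi⟩)
    exact ⟨ε, A, hA, hε⟩
  -- the cardinal arithmetic
  have hreg : (succ (succ κ)).IsRegular := succ_succ_regular hκ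
  have hcof : cof (succ (succ κ)).ord.ToType = succ (succ κ) := cof_K2 hκ
  have hκ2 : κ < succ (succ κ) := (lt_succ κ).trans (lt_succ _)
  have : IsRegularCardinalOrder (succ (succ κ)).ord.ToType :=
    ⟨by rw [hcof, Ordinal.type_toType]⟩
  have hK : ℵ₀ < cof (succ (succ κ)).ord.ToType := by
    rw [hcof]
    exact hκ.aleph0_le.trans_lt hκ2
  have hinit : ∀ a : (succ (succ κ)).ord.ToType, #(Iio a) < cof (succ (succ κ)).ord.ToType := by
    intro a
    rw [hcof]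
    have := mk_Iio_lt a (by simp)
    simpa using this
  have hst : IsStationary {β : (succ (succ κ)).ord.ToType | HighCof κ β} := by
    refine isStationary_highCof hκ.aleph0_le ?_
    obtain ⟨T, hT⟩ := (le_mk_iff_exists_set (c := succ κ) (α := (succ (succ κ)).ord.ToType)).1
      (by rw [mk_ord_toType]; exact le_succ _)
    obtain ⟨c, hc⟩ := exists_forall_lt_of_mk_lt_cof (s := T) (by
      rw [hcof, hT]
      exact lt_succ _)
    exact ⟨c, (lt_succ κ).trans_le (hT.symm.le.trans (mk_le_mk_of_subset hc))⟩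
  obtain ⟨q, b, hb1, hb2, hb3⟩ := exists_branch hK hinit hκ.aleph0_le (by rw [hcof]; exact hκ2)
    (mk_ord_toType κ).le (by rw [hcof, mk_ord_toType]; exact lt_succ _) hst Q' hdir' hcov' F hC
  refine ⟨q.1, q.2, {x | ∃ h : x.2 ≤ p, (x.1, (⟨x.2, h⟩ : Iic p)) ∈ b}, ?_⟩
  unfold isBranch
  simp only [forces_and, forces_all, forces_imp, forces_or, forces_ground, forces_ex]
  refine ⟨?_, ?_, ?_⟩
  · intro s q' hq' hs
    refine forces_dense _ fun q'' hq'' => ?_
    obtain ⟨r, hr, c, ⟨hc, hcb⟩, hrc⟩ := hs q'' hq''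
    exact ⟨r, hr, forces_mono _ hrc (hb1 _ _ hcb)⟩
  · rintro s t q' hq' ⟨hs, ht⟩ q'' hq''
    obtain ⟨r, hr, c, ⟨hc, hcb⟩, hrc⟩ := hs q'' hq''
    obtain ⟨r', hr', c', ⟨hc', hcb'⟩, hrc'⟩ := ht r (hr.trans hq'')
    have hr'p : r' ≤ p := hrc'.trans hc'
    rcases hb2 s ⟨c, hc⟩ t ⟨c', hc'⟩ hcb hcb' ⟨r', hr'p⟩ (hr'.trans hrc) hrc' with h | h | h
    · exact ⟨r', hr'.trans hr, Or.inl h⟩
    · exact ⟨r', hr'.trans hr, Or.inr fun a ha => ⟨a, le_rfl, Or.inl (forces_mono _ ha h)⟩⟩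
    · exact ⟨r', hr'.trans hr, Or.inr fun a ha => ⟨a, le_rfl, Or.inr (forces_mono _ ha h)⟩⟩
  · intro α q' hq'
    obtain ⟨r, hr, i, c, hc, hrc⟩ := hb3 α ⟨q', hq'.trans q.2⟩ hq'
    refine ⟨r.1, hr, i, fun a ha => ⟨a, le_rfl, c.1, ⟨c.2, hc⟩, ha.trans hrc⟩⟩

/-- **Main theorem.** If `κ` is regular and `GMP_{κ⁺⁺}` holds, then every `κ⁺`-centered forcing
forces the tree property at `κ⁺⁺`. -/
theorem result {κ : Cardinal.{u}} (hκ : κ.IsRegular) (hG : GMP κ) (P : Type u) [Preorder P]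
    (hP : IsCentered κ P) : ForcesTP κ P := by
  intro p
  rw [forces_all]
  intro X
  rw [forces_all]
  intro R
  rw [forces_imp]
  intro q _ hT
  rw [forces_ex]
  intro r hr
  exact exists_branch_below hκ hG hP (forces_mono _ hr hT)

end Main

end Pool.Agent.Results.MP_1b145a_lc.CenteredTreeProperty
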